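import Mathlib
import Pool.Agent.Results.MP_493565_co.StabiliserFails

/-!
# Vertex-transitive graphs without colours whose stabilised graphs defeat the WL method

For every `K` there is a connected vertex-transitive simple graph `H` without colours, on at most
`(K + 3) 2^(K + 4)` vertices, such that, for every vertex `v`, no `k`-dimensional WL method with
`1 ≤ k ≤ K` refines `H_v` to its orbits. The WL method of every dimension refines `H` itself to its
orbits, since there is only one orbit.

The graph, for odd `q`: the vertices are the triples `(c, x, a)` with `c` in `{false, true}`,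
`x < q` and a `0`-`1` vector `a` of length `q`. Two vertices `(c, x, a)` and `(c, y, b)` are
adjacent if `x ≠ y` and `a`, `b` have the same parity, and `(false, x, a)` is adjacent to
`(true, y, b)` if `a y = b x`.

The definitions `CGraph`, `IsAut`, `SameOrbit`, `stab`, `wl`, `stableRound`, `vertexColour`,
`RefinesToOrbits` are those of the file `StabiliserFails`.
-/

set_option autoImplicit false

namespace Pool.Agent.Results.MP_493565_co.VertexTransitive

open Finset
open Pool.Agent.Results.MP_493565_co.StabiliserFails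

/-- A simple graph without colours, as a coloured graph: all colours are `0`. -/
def plain {V : Type} (H : SimpleGraph V) : CGraph V where
  graph := H
  vcol := fun _ => 0
  ecol := fun _ _ => 0
  ecol_symm := fun _ _ => rfl

/-! ### Isomorphic coloured graphs -/

section iso

variable {V : Type} [Fintype V] [DecidableEq V]

theorem wl_iso (G G' : CGraph V) (k : ℕ) (φ : V ≃ V)
    (h1 : ∀ u v, G'.graph.Adj (φ u) (φ v) ↔ G.graph.Adj u v)
    (h2 : ∀ u v, G.graph.Adj u v → G'.ecol (φ u) (φ v) = G.ecol u v)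
    (h3 : ∀ u, G'.vcol (φ u) = G.vcol u) (t : ℕ) :
    ∀ S : Fin k → V, wl G k t S = wl G' k t (φ ∘ S) := by
  induction t with
  | zero =>
    intro S
    show isoType G k S = isoType G' k (φ ∘ S)
    unfold isoType
    refine Prod.ext ?_ (Prod.ext ?_ ?_)
    · funext i j
      simp
    · funext i j
      simp only [Function.comp]
      by_cases h : G.graph.Adj (S i) (S j)
      · rw [if_pos h, if_pos ((h1 _ _).2 h), h2 _ _ h]
      · rw [if_neg h, if_neg (fun h' => h ((h1 _ _).1 h'))]
    · funext i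
      exact (h3 _).symm
  | succ t ih =>
    intro S
    show (_, _) = (_, _)
    refine Prod.ext (ih S) ?_
    refine map_univ_eq φ _ _ fun x => ?_
    funext i
    show wl G k t (Function.update S i x) = wl G' k t (Function.update (φ ∘ S) i (φ x))
    rw [ih]
    congr 1
    funext j
    by_cases h : j = i
    · subst h; simp
    · simp [Function.update_of_ne h]

theorem stable_of_iso (G G' : CGraph V) (k : ℕ) (φ : V ≃ V)
    (h : ∀ t, ∀ S : Fin k → V, wl G k t S = wl G' k t (φ ∘ S)) (t : ℕ) :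
    IsStable G k t ↔ IsStable G' k t := by
  constructor
  · intro hs S S' hS
    have e : ∀ S : Fin k → V, φ ∘ (φ.symm ∘ S) = S := fun S => by funext i; simp
    have h1 := hs (φ.symm ∘ S) (φ.symm ∘ S') (by rw [h, h, e, e]; exact hS)
    rw [h, h, e, e] at h1
    exact h1
  · intro hs S S' hS
    rw [h, h] at hS
    rw [h, h]
    exact hs _ _ hS

/-- the colour of a vertex computed from round `T` -/
noncomputable def colourAt (G : CGraph V) (n T : ℕ) (v : V) : Nest (Col (n + 1) T) n :=
  down n fun t : Fin n → V => wl G (n + 1) T (Fin.cons v t : Fin (n + 1) → V)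

theorem refines_iso (G G' : CGraph V) (φ : V ≃ V) (n : ℕ)
    (h1 : ∀ u v, G'.graph.Adj (φ u) (φ v) ↔ G.graph.Adj u v)
    (h2 : ∀ u v, G.graph.Adj u v → G'.ecol (φ u) (φ v) = G.ecol u v)
    (h3 : ∀ u, G'.vcol (φ u) = G.vcol u) (hR : RefinesToOrbits n G') : RefinesToOrbits n G := by
  have hwl := wl_iso G G' (n + 1) φ h1 h2 h3
  have hst : stableRound G (n + 1) = stableRound G' (n + 1) := by
    unfold stableRound
    congr 1
    ext t
    exact stable_of_iso G G' (n + 1) φ hwl t
  have hcol : ∀ (T : ℕ) (u : V), colourAt G n T u = colourAt G' n T (φ u) := by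
    intro T u
    refine down_equiv φ n _ _ fun t => ?_
    rw [hwl]
    congr 1
    funext i
    refine Fin.cases ?_ (fun j => ?_) i <;> simp
  have horb : ∀ u v, SameOrbit G u v ↔ SameOrbit G' (φ u) (φ v) := by
    intro u v
    constructor
    · rintro ⟨ψ, hψ, rfl⟩
      refine ⟨(φ.symm.trans ψ).trans φ, ⟨fun a b => ?_, fun a b hab => ?_, fun a => ?_⟩, ?_⟩
      · show G'.graph.Adj (φ (ψ (φ.symm a))) (φ (ψ (φ.symm b))) ↔ _
        rw [h1, hψ.1, ← h1, φ.apply_symm_apply, φ.apply_symm_apply]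
      · show G'.ecol (φ (ψ (φ.symm a))) (φ (ψ (φ.symm b))) = _
        have hab' : G.graph.Adj (φ.symm a) (φ.symm b) := by
          rw [← h1, φ.apply_symm_apply, φ.apply_symm_apply]
          exact hab
        rw [h2 _ _ ((hψ.1 _ _).2 hab'), hψ.2.1 _ _ hab', ← h2 _ _ hab', φ.apply_symm_apply,
          φ.apply_symm_apply]
      · show G'.vcol (φ (ψ (φ.symm a))) = _
        rw [h3, hψ.2.2, ← h3, φ.apply_symm_apply]
      · show φ (ψ (φ.symm (φ u))) = _
        rw [φ.symm_apply_apply]
    · rintro ⟨ψ, hψ, hu⟩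
      refine ⟨(φ.trans ψ).trans φ.symm, ⟨fun a b => ?_, fun a b hab => ?_, fun a => ?_⟩, ?_⟩
      · show G.graph.Adj (φ.symm (ψ (φ a))) (φ.symm (ψ (φ b))) ↔ _
        rw [← h1, φ.apply_symm_apply, φ.apply_symm_apply, hψ.1, h1]
      · show G.ecol (φ.symm (ψ (φ a))) (φ.symm (ψ (φ b))) = _
        have hab' : G'.graph.Adj (ψ (φ a)) (ψ (φ b)) := by
          rw [hψ.1, h1]
          exact hab
        have hab2 : G.graph.Adj (φ.symm (ψ (φ a))) (φ.symm (ψ (φ b))) := by
          rw [← h1, φ.apply_symm_apply, φ.apply_symm_apply]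
          exact hab'
        rw [← h2 _ _ hab2, φ.apply_symm_apply, φ.apply_symm_apply,
          hψ.2.1 _ _ ((hψ.1 _ _).1 hab'), h2 _ _ hab]
      · show G.vcol (φ.symm (ψ (φ a))) = _
        rw [← h3, φ.apply_symm_apply, hψ.2.2, h3]
      · show φ.symm (ψ (φ u)) = v
        rw [hu, φ.symm_apply_apply]
  intro u v
  have h4 : vertexColour G n u = vertexColour G n v ↔
      vertexColour G' n (φ u) = vertexColour G' n (φ v) := by
    show colourAt G n (stableRound G (n + 1)) u = colourAt G n (stableRound G (n + 1)) v ↔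
      colourAt G' n (stableRound G' (n + 1)) (φ u) = colourAt G' n (stableRound G' (n + 1)) (φ v)
    rw [← hst, hcol, hcol]
  rw [h4, hR, horb]

end iso

/-! ### The graph -/

/-- the vertices -/
abbrev Vtx (q : ℕ) : Type := Bool × Fin q × (Fin q → ZMod 2)

/-- the graph -/
def HH (q : ℕ) : SimpleGraph (Vtx q) where
  Adj := fun s t => (s.1 = t.1 ∧ s.2.1 ≠ t.2.1 ∧ ∑ i, s.2.2 i = ∑ i, t.2.2 i) ∨
    (s.1 ≠ t.1 ∧ s.2.2 t.2.1 = t.2.2 s.2.1)
  symm := ⟨fun _ _ h => h.elim (fun h => Or.inl ⟨h.1.symm, h.2.1.symm, h.2.2.symm⟩)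
    (fun h => Or.inr ⟨h.1.symm, h.2.symm⟩)⟩
  loopless := ⟨fun _ h => h.elim (fun h => h.2.1 rfl) (fun h => h.1 rfl)⟩

variable {q : ℕ}

/-- the rows and the columns of a matrix -/
def line (M : Fin q → Fin q → ZMod 2) (c : Bool) (x : Fin q) : Fin q → ZMod 2 :=
  match c with
  | false => M x
  | true => fun i => M i x

theorem line_cross (M : Fin q → Fin q → ZMod 2) {c c' : Bool} (h : c ≠ c') (x y : Fin q) :
    line M c x y = line M c' y x := by
  cases c <;> cases c'
  · exact absurd rfl h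
  · rfl
  · rfl
  · exact absurd rfl h

/-- translation -/
def tra (L : Bool → Fin q → Fin q → ZMod 2) : Vtx q ≃ Vtx q where
  toFun s := (s.1, s.2.1, s.2.2 + L s.1 s.2.1)
  invFun s := (s.1, s.2.1, s.2.2 + L s.1 s.2.1)
  left_inv s := by
    refine Prod.ext rfl (Prod.ext rfl ?_)
    exact add_add_self _ _
  right_inv s := by
    refine Prod.ext rfl (Prod.ext rfl ?_)
    exact add_add_self _ _

theorem adj_tra (M : Fin q → Fin q → ZMod 2) (p : Bool → ZMod 2) {s t : Vtx q}
    (hs : ∑ i, line M s.1 s.2.1 i = p s.1) (ht : ∑ i, line M t.1 t.2.1 i = p t.1) :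
    (HH q).Adj (tra (line M) s) (tra (line M) t) ↔ (HH q).Adj s t := by
  show (s.1 = t.1 ∧ s.2.1 ≠ t.2.1 ∧ ∑ i, (s.2.2 i + line M s.1 s.2.1 i) =
      ∑ i, (t.2.2 i + line M t.1 t.2.1 i)) ∨
    (s.1 ≠ t.1 ∧ s.2.2 t.2.1 + line M s.1 s.2.1 t.2.1 = t.2.2 s.2.1 + line M t.1 t.2.1 s.2.1) ↔
    (s.1 = t.1 ∧ s.2.1 ≠ t.2.1 ∧ ∑ i, s.2.2 i = ∑ i, t.2.2 i) ∨
    (s.1 ≠ t.1 ∧ s.2.2 t.2.1 = t.2.2 s.2.1)
  rw [Finset.sum_add_distrib, Finset.sum_add_distrib, hs, ht]
  by_cases h : s.1 = t.1
  · simp [h]
  · simp [h, line_cross M h]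

/-! ### Vertex-transitivity -/

/-- some automorphism takes `u` to `v` -/
def Tr {V : Type} (H : SimpleGraph V) (u v : V) : Prop := ∃ φ : H ≃g H, φ u = v

theorem Tr.symm {V : Type} {H : SimpleGraph V} {u v : V} (h : Tr H u v) : Tr H v u := by
  obtain ⟨φ, rfl⟩ := h
  exact ⟨φ.symm, φ.symm_apply_apply u⟩

theorem Tr.trans {V : Type} {H : SimpleGraph V} {u v w : V} (h : Tr H u v) (h' : Tr H v w) :
    Tr H u w := by
  obtain ⟨φ, rfl⟩ := h
  obtain ⟨ψ, rfl⟩ := h'
  exact ⟨φ.trans ψ, rfl⟩

theorem tr_swap (s : Vtx q) : Tr (HH q) s (!s.1, s.2.1, s.2.2) := by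
  let e : Vtx q ≃ Vtx q :=
    { toFun := fun s => (!s.1, s.2.1, s.2.2)
      invFun := fun s => (!s.1, s.2.1, s.2.2)
      left_inv := fun s => by simp
      right_inv := fun s => by simp }
  refine ⟨{ toEquiv := e, map_rel_iff' := ?_ }, rfl⟩
  intro a b
  show ((!a.1) = (!b.1) ∧ a.2.1 ≠ b.2.1 ∧ ∑ i, a.2.2 i = ∑ i, b.2.2 i) ∨
    ((!a.1) ≠ (!b.1) ∧ a.2.2 b.2.1 = b.2.2 a.2.1) ↔
    (a.1 = b.1 ∧ a.2.1 ≠ b.2.1 ∧ ∑ i, a.2.2 i = ∑ i, b.2.2 i) ∨
    (a.1 ≠ b.1 ∧ a.2.2 b.2.1 = b.2.2 a.2.1)
  have h : (!a.1) = (!b.1) ↔ a.1 = b.1 := by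
    cases a.1 <;> cases b.1 <;> simp
  simp only [ne_eq, h]

theorem tr_perm (π : Equiv.Perm (Fin q)) (s : Vtx q) :
    Tr (HH q) s (s.1, π s.2.1, s.2.2 ∘ π.symm) := by
  let e : Vtx q ≃ Vtx q :=
    { toFun := fun s => (s.1, π s.2.1, s.2.2 ∘ π.symm)
      invFun := fun s => (s.1, π.symm s.2.1, s.2.2 ∘ π)
      left_inv := fun s => by
        refine Prod.ext rfl (Prod.ext (π.symm_apply_apply _) ?_)
        funext i
        simp
      right_inv := fun s => by
        refine Prod.ext rfl (Prod.ext (π.apply_symm_apply _) ?_)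
        funext i
        simp }
  refine ⟨{ toEquiv := e, map_rel_iff' := ?_ }, rfl⟩
  intro a b
  show (a.1 = b.1 ∧ π a.2.1 ≠ π b.2.1 ∧ ∑ i, a.2.2 (π.symm i) = ∑ i, b.2.2 (π.symm i)) ∨
    (a.1 ≠ b.1 ∧ a.2.2 (π.symm (π b.2.1)) = b.2.2 (π.symm (π a.2.1))) ↔
    (a.1 = b.1 ∧ a.2.1 ≠ b.2.1 ∧ ∑ i, a.2.2 i = ∑ i, b.2.2 i) ∨
    (a.1 ≠ b.1 ∧ a.2.2 b.2.1 = b.2.2 a.2.1)
  rw [π.symm_apply_apply, π.symm_apply_apply, π.injective.ne_iff,
    Equiv.sum_comp π.symm (fun i => a.2.2 i), Equiv.sum_comp π.symm (fun i => b.2.2 i)]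

theorem tr_flip (x x' : Fin q) (hx : x' ≠ x) (a : Fin q → ZMod 2) :
    Tr (HH q) (false, x, a) (false, x, 0) := by
  set p : ZMod 2 := ∑ i, a i with hp
  let M : Fin q → Fin q → ZMod 2 := fun i j => p * (if i = j then 1 else 0) +
    ((if i = x then 1 else 0) + (if i = x' then 1 else 0)) * (a j + p * (if x = j then 1 else 0))
  have hrow : ∀ i, ∑ j, M i j = p := by
    intro i
    show ∑ j, (p * (if i = j then 1 else 0) +
      ((if i = x then 1 else 0) + (if i = x' then 1 else 0)) *
        (a j + p * (if x = j then 1 else 0))) = p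
    rw [Finset.sum_add_distrib, ← Finset.mul_sum, ← Finset.mul_sum, Finset.sum_add_distrib,
      ← Finset.mul_sum, ← hp]
    simp [add_self]
  have hcol : ∀ j, ∑ i, M i j = p := by
    intro j
    show ∑ i, (p * (if i = j then 1 else 0) +
      ((if i = x then 1 else 0) + (if i = x' then 1 else 0)) *
        (a j + p * (if x = j then 1 else 0))) = p
    rw [Finset.sum_add_distrib, ← Finset.mul_sum, ← Finset.sum_mul, Finset.sum_add_distrib]
    simp [add_self]
  have hsum : ∀ s : Vtx q, ∑ i, line M s.1 s.2.1 i = (fun _ : Bool => p) s.1 := by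
    intro s
    obtain ⟨c, y, b⟩ := s
    cases c
    · exact hrow y
    · exact hcol y
  refine ⟨{ toEquiv := tra (line M), map_rel_iff' := ?_ }, ?_⟩
  · intro s t
    exact adj_tra M (fun _ => p) (hsum s) (hsum t)
  · show ((false, x, a + M x) : Vtx q) = (false, x, 0)
    refine Prod.ext rfl (Prod.ext rfl ?_)
    funext j
    show a j + (p * (if x = j then 1 else 0) +
      ((if x = x then 1 else 0) + (if x = x' then 1 else 0)) *
        (a j + p * (if x = j then 1 else 0))) = 0
    rw [if_pos rfl, if_neg (Ne.symm hx), add_zero, one_mul]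
    have h2 : ∀ u v : ZMod 2, u + (v + (u + v)) = 0 := by decide
    exact h2 _ _

theorem tr_zero (x0 : Fin q) (hq : 2 ≤ q) (s : Vtx q) : Tr (HH q) s (false, x0, 0) := by
  obtain ⟨c, x, a⟩ := s
  have h1 : Tr (HH q) (c, x, a) (false, x, a) := by
    cases c
    · exact ⟨SimpleGraph.Iso.refl, rfl⟩
    · exact tr_swap (true, x, a)
  obtain ⟨x', hx'⟩ : ∃ x' : Fin q, x' ≠ x := by
    have : Nontrivial (Fin q) := Fin.nontrivial_iff_two_le.2 hq
    exact exists_ne x
  have h2 := tr_flip x x' hx' a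
  have h3 := tr_perm (Equiv.swap x x0) (false, x, (0 : Fin q → ZMod 2))
  have h4 : ((false, x, (0 : Fin q → ZMod 2)).1, (Equiv.swap x x0) x,
      (0 : Fin q → ZMod 2) ∘ (Equiv.swap x x0).symm) = ((false, x0, 0) : Vtx q) := by
    refine Prod.ext rfl (Prod.ext (Equiv.swap_apply_left x x0) ?_)
    rfl
  rw [← h4]
  exact (h1.trans h2).trans h3

theorem transitive (hq : 2 ≤ q) (u v : Vtx q) : Tr (HH q) u v :=
  (tr_zero ⟨0, by omega⟩ hq u).trans (tr_zero ⟨0, by omega⟩ hq v).symm

/-! ### The stabilised graph: indistinguishable vertices -/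

/-- The pairs in `h` are compatible with the flip given by a matrix `M` whose row `x0` is zero,
whose rows are even, and whose columns are odd outside one column `d`, which is even and not met by
`h`. -/
def Good (x0 : Fin q) (h : Finset (Vtx q × Vtx q)) : Prop :=
  ∃ (M : Fin q → Fin q → ZMod 2) (d : Fin q), (∀ y, M x0 y = 0) ∧ (∀ x, ∑ y, M x y = 0) ∧
    (∀ y, y ≠ d → ∑ x, M x y = 1) ∧ ∑ x, M x d = 0 ∧
    ∀ p ∈ h, ¬ (p.1.1 = true ∧ p.1.2.1 = d) ∧ p.2 = tra (line M) p.1

theorem Good.mono {x0 : Fin q} {h h' : Finset (Vtx q × Vtx q)} (hg : Good x0 h) (hs : h' ⊆ h) :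
    Good x0 h' := by
  obtain ⟨M, d, h1, h2, h3, h4, h5⟩ := hg
  exact ⟨M, d, h1, h2, h3, h4, fun p hp => h5 p (hs hp)⟩

theorem exists_notMem {q k : ℕ} (hq : k + 2 ≤ q) (I : Finset (Fin q)) (hI : I.card ≤ k)
    (x : Fin q) : ∃ r : Fin q, r ≠ x ∧ r ∉ I := by
  by_contra hcon
  push Not at hcon
  have h1 : (insert x I) = Finset.univ := by
    refine Finset.eq_univ_iff_forall.2 fun r => ?_
    by_cases hr : r = x
    · exact Finset.mem_insert.2 (Or.inl hr)
    · exact Finset.mem_insert.2 (Or.inr (hcon r hr))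
  have h2 := Finset.card_insert_le x I
  rw [h1, Finset.card_univ, Fintype.card_fin] at h2
  omega

theorem Good.extend {k : ℕ} (hq : k + 2 ≤ q) {x0 : Fin q} {h : Finset (Vtx q × Vtx q)}
    (hg : Good x0 h) (hk : h.card ≤ k) :
    ∃ β : Vtx q ≃ Vtx q, ∀ u, Good x0 (insert (u, β u) h) := by
  classical
  obtain ⟨M, d, h1, h2, h3, h4, h5⟩ := hg
  have hI : (h.image fun p => p.1.2.1).card ≤ k := Finset.card_image_le.trans hk
  obtain ⟨r, hr0, hrI⟩ := exists_notMem hq _ hI x0
  obtain ⟨d', hd0, hdI⟩ := exists_notMem hq _ hI d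
  have hr : ∀ p ∈ h, p.1.2.1 ≠ r := fun p hp he =>
    hrI (Finset.mem_image.2 ⟨p, hp, he⟩)
  have hd : ∀ p ∈ h, p.1.2.1 ≠ d' := fun p hp he =>
    hdI (Finset.mem_image.2 ⟨p, hp, he⟩)
  let N : Fin q → Fin q → ZMod 2 := fun x y => M x y +
    (if x = r then 1 else 0) * ((if y = d then 1 else 0) + (if y = d' then 1 else 0))
  have hNrow : ∀ x, x ≠ r → N x = M x := by
    intro x hx
    funext y
    show M x y + (if x = r then 1 else 0) * _ = M x y
    rw [if_neg hx, zero_mul, add_zero]
  have hN1 : ∀ y, N x0 y = 0 := by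
    intro y
    rw [hNrow x0 (Ne.symm hr0)]
    exact h1 y
  have hN2 : ∀ x, ∑ y, N x y = 0 := by
    intro x
    show ∑ y, (M x y + (if x = r then 1 else 0) *
      ((if y = d then 1 else 0) + (if y = d' then 1 else 0))) = 0
    rw [Finset.sum_add_distrib, h2, zero_add, ← Finset.mul_sum, Finset.sum_add_distrib]
    simp [add_self]
  have hNc : ∀ y, ∑ x, N x y = ∑ x, M x y +
      ((if y = d then 1 else 0) + (if y = d' then 1 else 0)) := by
    intro y
    show ∑ x, (M x y + (if x = r then 1 else 0) *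
      ((if y = d then 1 else 0) + (if y = d' then 1 else 0))) = _
    rw [Finset.sum_add_distrib, ← Finset.sum_mul]
    simp
  have hN3 : ∀ y, y ≠ d' → ∑ x, N x y = 1 := by
    intro y hy
    rw [hNc, if_neg hy, add_zero]
    by_cases hyd : y = d
    · subst hyd
      rw [h4, if_pos rfl, zero_add]
    · rw [h3 y hyd, if_neg hyd, add_zero]
  have hN4 : ∑ x, N x d' = 0 := by
    rw [hNc, h3 d' hd0, if_neg hd0, if_pos rfl, zero_add]
    exact add_self _
  have hline : ∀ c x, x ≠ r → x ≠ d' → ¬ (c = true ∧ x = d) → line N c x = line M c x := by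
    intro c x hxr hxd hc
    cases c
    · exact hNrow x hxr
    · funext i
      show M i x + (if i = r then 1 else 0) *
        ((if x = d then 1 else 0) + (if x = d' then 1 else 0)) = M i x
      rw [if_neg (fun he => hc ⟨rfl, he⟩), if_neg hxd, add_zero, mul_zero, add_zero]
  refine ⟨tra (fun c x => if c = true ∧ x = d then line N c x else line M c x), fun u => ?_⟩
  by_cases hu : u.1 = true ∧ u.2.1 = d
  · refine ⟨N, d', hN1, hN2, hN3, hN4, ?_⟩
    intro p hp
    rw [Finset.mem_insert] at hp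
    rcases hp with rfl | hp
    · refine ⟨fun he => hd0 (he.2.symm.trans hu.2), ?_⟩
      show ((u.1, u.2.1, u.2.2 + (if u.1 = true ∧ u.2.1 = d then line N u.1 u.2.1 else
        line M u.1 u.2.1)) : Vtx q) = (u.1, u.2.1, u.2.2 + line N u.1 u.2.1)
      rw [if_pos hu]
    · obtain ⟨h6, h7⟩ := h5 p hp
      refine ⟨fun he => hd p hp he.2, ?_⟩
      rw [h7]
      show ((p.1.1, p.1.2.1, p.1.2.2 + line M p.1.1 p.1.2.1) : Vtx q) =
        (p.1.1, p.1.2.1, p.1.2.2 + line N p.1.1 p.1.2.1)
      rw [hline _ _ (hr p hp) (hd p hp) h6]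
  · refine ⟨M, d, h1, h2, h3, h4, ?_⟩
    intro p hp
    rw [Finset.mem_insert] at hp
    rcases hp with rfl | hp
    · refine ⟨hu, ?_⟩
      show ((u.1, u.2.1, u.2.2 + (if u.1 = true ∧ u.2.1 = d then line N u.1 u.2.1 else
        line M u.1 u.2.1)) : Vtx q) = (u.1, u.2.1, u.2.2 + line M u.1 u.2.1)
      rw [if_neg hu]
    · exact h5 p hp

open Classical in
theorem wl_good {k : ℕ} (hq : k + 2 ≤ q) (x0 : Fin q) (t : ℕ) : ∀ S S' : Fin k → Vtx q,
    Good x0 (Finset.univ.image fun i => (S i, S' i)) →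
    wl (stab (plain (HH q)) (false, x0, 0)) k t S =
      wl (stab (plain (HH q)) (false, x0, 0)) k t S' := by
  induction t with
  | zero =>
    rintro S S' ⟨M, d, h1, h2, h3, h4, h5⟩
    have hS : ∀ i, ¬ ((S i).1 = true ∧ (S i).2.1 = d) ∧ S' i = tra (line M) (S i) := by
      intro i
      exact h5 (S i, S' i) (Finset.mem_image_of_mem _ (Finset.mem_univ i))
    have hpar : ∀ i, ∑ j, line M (S i).1 (S i).2.1 j =
        (fun c : Bool => if c then (1 : ZMod 2) else 0) (S i).1 := by
      intro i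
      have h6 := (hS i).1
      rcases hc : (S i).1 with _ | _
      · exact h2 _
      · rw [hc] at h6
        exact h3 _ (fun he => h6 ⟨rfl, he⟩)
    show isoType _ k S = isoType _ k S'
    unfold isoType
    refine Prod.ext ?_ (Prod.ext ?_ ?_)
    · funext i j
      show (S i = S j) = (S' i = S' j)
      rw [(hS i).2, (hS j).2, (tra (line M)).injective.eq_iff]
    · funext i j
      have h6 : (HH q).Adj (S' i) (S' j) ↔ (HH q).Adj (S i) (S j) := by
        rw [(hS i).2, (hS j).2]
        exact adj_tra M (fun c : Bool => if c then (1 : ZMod 2) else 0) (hpar i) (hpar j)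
      change (if (HH q).Adj (S i) (S j) then some 0 else none) =
        (if (HH q).Adj (S' i) (S' j) then some 0 else none)
      by_cases h : (HH q).Adj (S i) (S j)
      · rw [if_pos h, if_pos (h6.2 h)]
      · rw [if_neg h, if_neg (fun h' => h (h6.1 h'))]
    · funext i
      change (stab (plain (HH q)) (false, x0, 0)).vcol (S i) =
        (stab (plain (HH q)) (false, x0, 0)).vcol (S' i)
      have hfix : ∀ s : Vtx q, s.1 = false → s.2.1 = x0 → tra (line M) s = s := by
        rintro ⟨c, x, a⟩ hc hx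
        simp only at hc hx
        subst hc hx
        refine Prod.ext rfl (Prod.ext rfl ?_)
        funext y
        show a y + M x y = a y
        rw [h1, add_zero]
      by_cases h0 : S i = (false, x0, 0)
      · rw [(hS i).2, hfix (S i) (by rw [h0]) (by rw [h0])]
      · have h6 : S' i ≠ (false, x0, 0) := by
          intro he
          apply h0
          have h7 := (hS i).2
          rw [he] at h7
          have h8 : (S i).1 = false := (congrArg (fun s : Vtx q => s.1) h7).symm
          have h9 : (S i).2.1 = x0 := (congrArg (fun s : Vtx q => s.2.1) h7).symm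
          rw [hfix (S i) h8 h9] at h7
          exact h7.symm
        rw [stab_vcol_ne _ _ _ h0, stab_vcol_ne _ _ _ h6]
        rfl
  | succ t ih =>
    intro S S' hg
    show (_, _) = (_, _)
    refine Prod.ext (ih S S' hg) ?_
    have hcard : (Finset.univ.image fun i : Fin k => (S i, S' i)).card ≤ k := by
      refine Finset.card_image_le.trans ?_
      simp
    obtain ⟨β, hβ⟩ := hg.extend hq hcard
    refine map_univ_eq β _ _ fun x => ?_
    funext i
    refine ih _ _ ((hβ x).mono ?_)
    intro p hp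
    obtain ⟨j, -, rfl⟩ := Finset.mem_image.1 hp
    by_cases hj : j = i
    · subst hj
      simp
    · rw [Function.update_of_ne hj, Function.update_of_ne hj]
      exact Finset.mem_insert_of_mem (Finset.mem_image_of_mem _ (Finset.mem_univ j))

theorem down_good {k : ℕ} {C : Type} (hq : k + 2 ≤ q) (x0 : Fin q) : ∀ (n : ℕ)
    (h : Finset (Vtx q × Vtx q)), h.card + n ≤ k → Good x0 h →
    ∀ f f' : (Fin n → Vtx q) → C,
    (∀ t t', Good x0 (h ∪ Finset.univ.image fun i => (t i, t' i)) → f t = f' t') →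
    down n f = down n f' := by
  intro n
  induction n with
  | zero =>
    intro h _ hg f f' hf
    exact hf _ _ (hg.mono (by simp))
  | succ n ih =>
    intro h hc hg f f' hf
    obtain ⟨β, hβ⟩ := hg.extend hq (by omega)
    refine map_univ_eq β _ _ fun x => ?_
    refine ih (insert (x, β x) h) ?_ (hβ x) _ _ fun t t' ht => ?_
    · have := Finset.card_insert_le (x, β x) h
      omega
    · refine hf _ _ (ht.mono ?_)
      intro p hp
      rw [Finset.mem_union] at hp
      rcases hp with hp | hp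
      · exact Finset.mem_union_left _ (Finset.mem_insert_of_mem hp)
      · obtain ⟨j, -, rfl⟩ := Finset.mem_image.1 hp
        refine Fin.cases ?_ (fun j => ?_) j
        · exact Finset.mem_union_left _ (Finset.mem_insert_self _ _)
        · refine Finset.mem_union_right _ ?_
          exact Finset.mem_image_of_mem (fun i => (t i, t' i)) (Finset.mem_univ j)

/-- equal colours of dimension `n + 1` -/
theorem same_colour {n : ℕ} (hq : n + 3 ≤ q) (x0 x1 d y1 : Fin q) (hx : x1 ≠ x0) (hd : y1 ≠ d)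
    (hodd : Odd q) :
    vertexColour (stab (plain (HH q)) (false, x0, 0)) n (true, y1, 0) =
      vertexColour (stab (plain (HH q)) (false, x0, 0)) n (true, y1, Pi.single x1 1) := by
  classical
  unfold vertexColour
  let M : Fin q → Fin q → ZMod 2 := fun x y => (if x = x1 then 1 else 0) *
    (1 + (if y = d then 1 else 0))
  have hg : Good x0 ({((true, y1, 0), (true, y1, Pi.single x1 1))} :
      Finset (Vtx q × Vtx q)) := by
    refine ⟨M, d, fun y => ?_, fun x => ?_, fun y hy => ?_, ?_, fun p hp => ?_⟩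
    · show (if x0 = x1 then 1 else 0) * _ = 0
      rw [if_neg (Ne.symm hx), zero_mul]
    · show ∑ y, (if x = x1 then 1 else 0) * ((1 : ZMod 2) + (if y = d then 1 else 0)) = 0
      rw [← Finset.mul_sum, Finset.sum_add_distrib]
      have h1 : ∑ _y : Fin q, (1 : ZMod 2) = 1 := by
        rw [Finset.sum_const, Finset.card_univ, Fintype.card_fin, nsmul_eq_mul, mul_one]
        exact ZMod.natCast_eq_one_iff_odd.2 hodd
      rw [h1]
      simp [add_self]
    · show ∑ x, (if x = x1 then 1 else 0) * ((1 : ZMod 2) + (if y = d then 1 else 0)) = 1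
      rw [if_neg hy, ← Finset.sum_mul]
      simp
    · show ∑ x, (if x = x1 then 1 else 0) * ((1 : ZMod 2) + (if d = d then 1 else 0)) = 0
      rw [if_pos rfl, add_self, ← Finset.sum_mul, mul_zero]
    · rw [Finset.mem_singleton] at hp
      subst hp
      refine ⟨fun h => hd h.2, ?_⟩
      refine Prod.ext rfl (Prod.ext rfl ?_)
      funext i
      show (Pi.single x1 1 : Fin q → ZMod 2) i = 0 + (if i = x1 then 1 else 0) *
        (1 + (if y1 = d then 1 else 0))
      rw [if_neg hd, add_zero, mul_one, zero_add, Pi.single_apply]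
  refine down_good (k := n + 1) (by omega) x0 n _ (by simp; omega) hg _ _ fun t t' ht => ?_
  refine wl_good (by omega) x0 _ _ _ (ht.mono ?_)
  intro p hp
  obtain ⟨j, -, rfl⟩ := Finset.mem_image.1 hp
  refine Fin.cases ?_ (fun j => ?_) j
  · exact Finset.mem_union_left _ (Finset.mem_singleton_self _)
  · refine Finset.mem_union_right _ ?_
    exact Finset.mem_image_of_mem (fun i => (t i, t' i)) (Finset.mem_univ j)

/-! ### The orbits of the stabilised graph -/

theorem no_aut (hodd : Odd q) (x0 y1 : Fin q) (b : Fin q → ZMod 2) (hb : ∑ i, b i = 1)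
    (φ : Vtx q ≃ Vtx q) (hφ : ∀ s t, (HH q).Adj s t → (HH q).Adj (φ s) (φ t))
    (h0 : φ (false, x0, 0) = (false, x0, 0)) (h1 : φ (true, y1, 0) = (true, y1, b)) : False := by
  classical
  let T : Bool × Fin q → Vtx q := fun i => (i.1, i.2, 0)
  have hT : ∀ i j, i ≠ j → (HH q).Adj (T i) (T j) := by
    intro i j hij
    by_cases hc : i.1 = j.1
    · left
      refine ⟨hc, fun h => hij (Prod.ext hc h), rfl⟩
    · right
      exact ⟨hc, rfl⟩
  let g : Bool × Fin q → Bool × Fin q := fun i => ((φ (T i)).1, (φ (T i)).2.1)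
  have hginj : Function.Injective g := by
    intro i j hij
    by_contra hne
    have h2 := hφ _ _ (hT i j hne)
    have e1 : (φ (T i)).1 = (φ (T j)).1 := congrArg (fun z : Bool × Fin q => z.1) hij
    have e2 : (φ (T i)).2.1 = (φ (T j)).2.1 := congrArg (fun z : Bool × Fin q => z.2) hij
    rcases h2 with h2 | h2
    · exact h2.2.1 e2
    · exact h2.1 e1
  let e : Bool × Fin q ≃ Bool × Fin q :=
    Equiv.ofBijective g (Finite.injective_iff_bijective.1 hginj)
  let S : Bool × Fin q → Vtx q := fun i => φ (T (e.symm i))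
  have hS : ∀ i, ((S i).1, (S i).2.1) = i := fun i => e.apply_symm_apply i
  have hS1 : ∀ i, (S i).1 = i.1 := fun i => congrArg Prod.fst (hS i)
  have hS2 : ∀ i, (S i).2.1 = i.2 := fun i => congrArg Prod.snd (hS i)
  have hadj : ∀ i j, i ≠ j → (HH q).Adj (S i) (S j) := fun i j hij =>
    hφ _ _ (hT _ _ fun h => hij (e.symm.injective h))
  have hcross : ∀ x y, (S (false, x)).2.2 y = (S (true, y)).2.2 x := by
    intro x y
    rcases hadj (false, x) (true, y) (fun h => Bool.false_ne_true (congrArg Prod.fst h)) with h | h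
    · have h2 := h.1
      rw [hS1, hS1] at h2
      exact absurd h2 Bool.false_ne_true
    · have h2 := h.2
      rw [hS2, hS2] at h2
      exact h2
  have hpar : ∀ c x y, ∑ i, (S (c, x)).2.2 i = ∑ i, (S (c, y)).2.2 i := by
    intro c x y
    by_cases hxy : x = y
    · rw [hxy]
    · rcases hadj (c, x) (c, y) (fun h => hxy (congrArg Prod.snd h)) with h | h
      · exact h.2.2
      · exfalso
        apply h.1
        rw [hS1, hS1]
  have hs0 : S (false, x0) = (false, x0, 0) := by
    have h2 : e (false, x0) = (false, x0) := by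
      show ((φ (T (false, x0))).1, (φ (T (false, x0))).2.1) = _
      have h3 : φ (T (false, x0)) = (false, x0, 0) := h0
      rw [h3]
    show φ (T (e.symm (false, x0))) = _
    rw [e.symm_apply_eq.2 h2.symm]
    exact h0
  have hs1 : S (true, y1) = (true, y1, b) := by
    have h2 : e (true, y1) = (true, y1) := by
      show ((φ (T (true, y1))).1, (φ (T (true, y1))).2.1) = _
      have h3 : φ (T (true, y1)) = (true, y1, b) := h1
      rw [h3]
    show φ (T (e.symm (true, y1))) = _
    rw [e.symm_apply_eq.2 h2.symm]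
    exact h1
  have hA : ∀ x, ∑ i, (S (false, x)).2.2 i = 0 := by
    intro x
    rw [hpar false x x0, hs0]
    simp
  have hB : ∀ y, ∑ i, (S (true, y)).2.2 i = 1 := by
    intro y
    rw [hpar true y y1, hs1]
    exact hb
  have h2 : ∑ x, ∑ y, (S (false, x)).2.2 y = 0 := by
    rw [Finset.sum_congr rfl fun x _ => hA x]
    simp
  have h3 : ∑ y, ∑ x, (S (true, y)).2.2 x = 1 := by
    rw [Finset.sum_congr rfl fun y _ => hB y, Finset.sum_const, Finset.card_univ,
      Fintype.card_fin, nsmul_eq_mul, mul_one]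
    exact ZMod.natCast_eq_one_iff_odd.2 hodd
  rw [Finset.sum_comm] at h2
  rw [Finset.sum_congr rfl fun y _ => Finset.sum_congr rfl fun x _ => hcross x y, h3] at h2
  exact absurd h2 (by decide)

theorem not_refines {n : ℕ} (hq : n + 3 ≤ q) (hodd : Odd q) (v : Vtx q) :
    ¬ RefinesToOrbits n (stab (plain (HH q)) v) := by
  intro hR
  let x0 : Fin q := ⟨0, by omega⟩
  let x1 : Fin q := ⟨1, by omega⟩
  have hx : x1 ≠ x0 := fun h => by
    have := congrArg Fin.val h
    simp [x0, x1] at this
  obtain ⟨ψ, hψ⟩ := transitive (by omega) ((false, x0, 0) : Vtx q) v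
  have hR0 : RefinesToOrbits n (stab (plain (HH q)) ((false, x0, 0) : Vtx q)) := by
    refine refines_iso _ _ ψ.toEquiv n ?_ ?_ ?_ hR
    · intro u w
      exact ψ.map_adj_iff
    · intro u w _
      rfl
    · intro u
      have hsup : ∀ w : Vtx q, (stab (plain (HH q)) w).vcol w = 1 := by
        intro w
        rw [stab_vcol_self]
        have : Finset.univ.sup (plain (HH q)).vcol = 0 := by
          rw [← Nat.bot_eq_zero, Finset.sup_eq_bot_iff]
          intro _ _
          rfl
        rw [this]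
      by_cases hu : u = (false, x0, 0)
      · subst hu
        rw [hsup]
        have : ψ.toEquiv (false, x0, 0) = v := hψ
        rw [this, hsup]
      · have hu' : ψ.toEquiv u ≠ v := by
          intro h
          apply hu
          apply ψ.toEquiv.injective
          rw [h]
          exact hψ.symm
        rw [stab_vcol_ne _ _ _ hu, stab_vcol_ne _ _ _ hu']
        rfl
  have hcol := same_colour hq x0 x1 x0 x1 hx hx hodd
  obtain ⟨φ, hφ, hφu⟩ := (hR0 _ _).1 hcol
  refine no_aut hodd x0 x1 (Pi.single x1 1) ?_ φ (fun s t h => (hφ.1 s t).2 h)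
    (aut_fix _ _ φ hφ) hφu
  simp

/-! ### Connectedness -/

theorem reach_ne {x x' : Fin q} (hx : x ≠ x') (a a' : Fin q → ZMod 2) :
    (HH q).Reachable (false, x, a) (false, x', a') := by
  let b : Fin q → ZMod 2 := fun i => if i = x then a x else a' x
  have h1 : (HH q).Adj (false, x, a) (true, x, b) := by
    right
    refine ⟨Bool.false_ne_true, ?_⟩
    show a x = if x = x then a x else a' x
    rw [if_pos rfl]
  have h2 : (HH q).Adj (true, x, b) (false, x', a') := by
    right
    refine ⟨Bool.false_ne_true.symm, ?_⟩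
    show (if x' = x then a x else a' x) = a' x
    rw [if_neg (Ne.symm hx)]
  exact h1.reachable.trans h2.reachable

theorem reach_false (hq : 2 ≤ q) (x x' : Fin q) (a a' : Fin q → ZMod 2) :
    (HH q).Reachable (false, x, a) (false, x', a') := by
  by_cases hx : x = x'
  · subst hx
    have : Nontrivial (Fin q) := Fin.nontrivial_iff_two_le.2 hq
    obtain ⟨y, hy⟩ := exists_ne x
    exact (reach_ne hy.symm a 0).trans (reach_ne hy 0 a')
  · exact reach_ne hx a a'

theorem connected (hq : 2 ≤ q) : (HH q).Connected := by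
  have h1 : ∀ s : Vtx q, ∃ x a, (HH q).Reachable s (false, x, a) := by
    rintro ⟨c, x, a⟩
    cases c
    · exact ⟨x, a, SimpleGraph.Reachable.refl _⟩
    · refine ⟨x, a, SimpleGraph.Adj.reachable ?_⟩
      right
      exact ⟨Bool.false_ne_true.symm, rfl⟩
  refine { preconnected := fun s t => ?_, nonempty := ⟨(false, ⟨0, by omega⟩, 0)⟩ }
  obtain ⟨x, a, hs⟩ := h1 s
  obtain ⟨y, b, ht⟩ := h1 t
  exact (hs.trans (reach_false hq x y a b)).trans ht.symm

/-- For every `K` there is a finite connected simple graph `H` without colours, on at most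
`(K + 3) 2^(K + 4)` vertices, whose automorphism group is transitive on the vertices, such that the
WL method of every dimension refines `H` to its orbits, but, for every vertex `v`, the
`(n + 1)`-dimensional WL method refines `H_v` to its orbits for no `n < K`. -/
theorem result (K : ℕ) : ∃ (V : Type) (_ : Fintype V) (_ : DecidableEq V) (H : SimpleGraph V),
    H.Connected ∧ Fintype.card V ≤ (K + 3) * 2 ^ (K + 4) ∧
    (∀ u v : V, ∃ φ : H ≃g H, φ u = v) ∧ (∀ n : ℕ, RefinesToOrbits n (plain H)) ∧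
    ∀ v : V, ∀ n < K, ¬ RefinesToOrbits n (stab (plain H) v) := by
  obtain ⟨q, hodd, h1, h2, h3⟩ : ∃ q : ℕ, Odd q ∧ K + 2 ≤ q ∧ q ≤ K + 3 ∧ 2 ≤ q := by
    rcases Nat.even_or_odd K with h | h
    · exact ⟨K + 3, h.add_odd (by decide), by omega, le_refl _, by omega⟩
    · exact ⟨K + 2, h.add_even (by decide), le_refl _, by omega, by omega⟩
  refine ⟨Vtx q, inferInstance, inferInstance, HH q, connected h3, ?_, transitive h3,
    fun n u v => ?_, fun v n hn => not_refines (by omega) hodd v⟩
  · have h4 : Fintype.card (Vtx q) = 2 * (q * 2 ^ q) := by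
      rw [Fintype.card_prod, Fintype.card_prod, Fintype.card_bool, Fintype.card_fin,
        Fintype.card_fun, Fintype.card_fin, ZMod.card]
    rw [h4]
    calc 2 * (q * 2 ^ q) ≤ 2 * ((K + 3) * 2 ^ (K + 3)) :=
          Nat.mul_le_mul_left _ (Nat.mul_le_mul h2 (Nat.pow_le_pow_right (by norm_num) h2))
      _ = (K + 3) * 2 ^ (K + 4) := by ring
  · obtain ⟨φ, rfl⟩ := transitive h3 u v
    have hφ : IsAut (plain (HH q)) φ.toEquiv :=
      ⟨fun _ _ => φ.map_adj_iff, fun _ _ _ => rfl, fun _ => rfl⟩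
    exact ⟨fun _ => ⟨φ.toEquiv, hφ, rfl⟩, fun _ => vertexColour_aut _ n φ.toEquiv hφ u⟩

end Pool.Agent.Results.MP_493565_co.VertexTransitive
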